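import Pool.Agent.PlunTwo.Final
import Pool.Agent.H65R.Fin2
import Pool.Agent.H65T.Half3
import Pool.Agent.H5Uni.Uni

/-!
# The density form, all `k' < k`
-/

set_option autoImplicit false

open Finset Classical

namespace Pool.Agent.H65V

open Pool.Agent.PlunTwo Pool.Agent.H5St Pool.Agent.H65R

/-- The general form: the condition `hG` is void for `k ≤ 2 k'`. -/
theorem density_uni {N j k : ℕ} (hj : 0 < j) (hk : j < k)
    (A B : Set (ℕ × ℕ)) {α κ a c h : ℝ} (hα : 0 ≤ α) (hκ : 0 ≤ κ) (ha : 1 ≤ a) (hc : 1 ≤ c)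
    (hA0 : OnFirst N A (a * α)) (hA : OnBoth N A α)
    (hK0 : OnFirst N (kfold B k) (c * κ)) (hK : OnBoth N (kfold B k) κ)
    (hS : OnSmallStairs N (kfold B k) (h * κ))
    (hG : 2 * (1 - (j : ℝ) / k) * (2 - c) ≤ a * c)
    (hM : 2 ≤ a + h ∨ (1 - (j : ℝ) / k) * (2 - c) * (c - a) ≤ a * (c + h - 2)) :
    α ^ (1 - (j : ℝ) / k) * κ ^ ((j : ℝ) / k) ≤ sigma N (msum A (kfold B j)) := by
  obtain ⟨hθ0, hθ1⟩ := theta_pos hj hk
  rcases hα.eq_or_lt with h0 | hα
  · rw [← h0, Real.zero_rpow (by linarith), zero_mul]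
    exact sigma_nonneg _ _
  rcases hκ.eq_or_lt with h0 | hκ
  · rw [← h0, Real.zero_rpow hθ0.ne', mul_zero]
    exact sigma_nonneg _ _
  refine le_sigma N _ _ (fun n hn => ?_) fun n hn => ?_
  · refine one_row hj hk hn A B hα hκ (fun l hl => ?_) fun l hl => ?_
    · refine le_trans ?_ (hA0 l hl)
      have := mul_le_mul_of_nonneg_right ha (mul_nonneg hα.le (Nat.cast_nonneg l (α := ℝ)))
      linarith
    · refine le_trans ?_ (hK0 l hl)
      have := mul_le_mul_of_nonneg_right hc (mul_nonneg hκ.le (Nat.cast_nonneg l (α := ℝ)))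
      linarith
  · have hK1 : ∀ l ≤ n + 1, κ * (2 * (l : ℝ)) ≤
        (row 0 (kfold B k) l : ℝ) + row 1 (kfold B k) l := fun l hl => hK l (by omega)
    have hK2 : ∀ l ≤ n + 1, c * κ * (l : ℝ) ≤ row 0 (kfold B k) l := fun l hl => hK0 l (by omega)
    have hA1 : ∀ l ≤ n + 1, a * α * (l : ℝ) ≤ row 0 A l := fun l hl => hA0 l (by omega)
    have hA2 : ∀ l ≤ n + 1, 2 * α * (l : ℝ) ≤ (row 0 A l : ℝ) + row 1 A l := fun l hl => by
      have := hA l (by omega)
      linarith
    have hfin : 2 * (α ^ (1 - (j : ℝ) / k) * κ ^ ((j : ℝ) / k)) * ((n + 1 : ℕ) : ℝ) ≤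
        (row 0 (msum A (kfold B j)) (n + 1) : ℝ) + row 1 (msum A (kfold B j)) (n + 1) := by
      rcases lt_or_ge c 2 with hc2 | hc2
      · exact Pool.Agent.H5Uni.uni_bound (q := n) hj hk A B hα hκ ha hc hc2 hA1 hA2
          { zero := hK2
            both := hK1
            stair := fun x y hy hxy => hS x y hy (by omega) } hG hM
      · have h1 : 1 ≤ 2 * c / (2 + c) := by
          rw [le_div_iff₀ (by linarith)]
          linarith
        refine Pool.Agent.H65T.third_bound (q := n) (τ := 1 / 2) (h := 2 * c / (2 + c)) hj hk A B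
          hα hκ (by norm_num) (by norm_num) (by linarith) ha (by linarith) (by linarith) hA1 hA2
          { zero := hK2
            both := hK1
            stair := fun x y hy hxy => stair_always (by linarith) hK2 hK1 x y hy hxy }
          (Or.inl (by linarith))
    push_cast at hfin
    linarith

/-- The form for the densities themselves, without a hypothesis on staircases. -/
theorem density_sigma {N j k : ℕ} (hj : 0 < j) (hk : j < k)
    (A B : Set (ℕ × ℕ)) {a c : ℝ} (ha : 1 ≤ a) (hc : 1 ≤ c)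
    (hA0 : OnFirst N A (a * sigma N A))
    (hK0 : OnFirst N (kfold B k) (c * sigma N (kfold B k)))
    (hG : 2 * (1 - (j : ℝ) / k) * (2 - c) ≤ a * c)
    (hM : 4 ≤ a * (2 + c) ∨
      (1 - (j : ℝ) / k) * (4 - c ^ 2) * (c - a) ≤ a * (c ^ 2 + 2 * c - 4)) :
    sigma N A ^ (1 - (j : ℝ) / k) * sigma N (kfold B k) ^ ((j : ℝ) / k) ≤
      sigma N (msum A (kfold B j)) := by
  have hc2 : 0 < 2 + c := by linarith
  have hboth : ∀ X : Set (ℕ × ℕ), OnBoth N X (sigma N X) := fun X l hl => rows_ge N X hl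
  refine density_uni hj hk A B (sigma_nonneg _ _) (sigma_nonneg _ _) ha hc
    (h := 2 * c / (2 + c)) hA0 (hboth A) hK0 (hboth _) ?_ hG ?_
  · exact fun x y hy hxy => stair_always (by linarith) hK0 (hboth _) x y hy hxy
  · rcases hM with h | h
    · refine Or.inl ?_
      have e : a + 2 * c / (2 + c) - 2 = (a * (2 + c) - 4) / (2 + c) := by
        field_simp
        ring
      have : 0 ≤ (a * (2 + c) - 4) / (2 + c) := div_nonneg (by linarith) hc2.le
      linarith
    · refine Or.inr ?_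
      have e : a * (c + 2 * c / (2 + c) - 2) = a * (c ^ 2 + 2 * c - 4) / (2 + c) := by
        field_simp
        ring
      rw [e, le_div_iff₀ hc2]
      refine le_trans (le_of_eq ?_) h
      ring

/-- Simple conditions. -/
theorem density_simple {N j k : ℕ} (hj : 0 < j) (hk : j < k)
    (A B : Set (ℕ × ℕ))
    (h : OnFirst N A (max (4 / 3) (2 - 2 * ((j : ℝ) / k)) * sigma N A) ∨
      OnFirst N (kfold B k) (√2 * sigma N (kfold B k)) ∨
      (k ≤ 2 * j ∧ OnFirst N (kfold B k) (4 / 3 * sigma N (kfold B k))) ∨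
      (OnFirst N A ((√5 - 1) * sigma N A) ∧
        OnFirst N (kfold B k) ((√5 - 1) * sigma N (kfold B k))) ∨
      (OnSmallStairs N (kfold B k) (sigma N (kfold B k)) ∧
        (k ≤ 2 * j ∨ OnFirst N (kfold B k) (4 / 3 * sigma N (kfold B k)) ∨
          OnFirst N A ((2 - 2 * ((j : ℝ) / k)) * sigma N A)))) :
    sigma N A ^ (1 - (j : ℝ) / k) * sigma N (kfold B k) ^ ((j : ℝ) / k) ≤
      sigma N (msum A (kfold B j)) := by
  obtain ⟨hθ0, hθ1⟩ := theta_pos hj hk
  have hθ2 : k ≤ 2 * j → 1 / 2 ≤ (j : ℝ) / k := by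
    intro hk2
    have hk0 : (0 : ℝ) < k := by exact_mod_cast hj.trans hk
    rw [le_div_iff₀ hk0]
    have : (k : ℝ) ≤ 2 * j := by exact_mod_cast hk2
    linarith
  have hfirst : ∀ X : Set (ℕ × ℕ), OnFirst N X (1 * sigma N X) := onFirst_always N
  rcases h with h | h | ⟨h2, h⟩ | ⟨h, h'⟩ | ⟨h, h'⟩
  · have m1 := le_max_left (4 / 3 : ℝ) (2 - 2 * ((j : ℝ) / k))
    have m2 := le_max_right (4 / 3 : ℝ) (2 - 2 * ((j : ℝ) / k))
    exact density_sigma hj hk A B (a := max (4 / 3) (2 - 2 * ((j : ℝ) / k))) (c := 1)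
      (by linarith) le_rfl h (hfirst _) (by linarith) (Or.inl (by linarith))
  · have s0 : 0 ≤ √(2 : ℝ) := Real.sqrt_nonneg 2
    have s2 : √(2 : ℝ) ^ 2 = 2 := Real.sq_sqrt (by norm_num)
    have s1 : 4 / 3 ≤ √(2 : ℝ) := Real.le_sqrt_of_sq_le (by norm_num)
    have s3 : √(2 : ℝ) ≤ 2 := by nlinarith
    refine density_sigma hj hk A B (a := 1) (c := √2) le_rfl (by linarith) (hfirst _) h ?_
      (Or.inr ?_)
    · have := mul_le_mul_of_nonneg_right (show 1 - (j : ℝ) / k ≤ 1 by linarith)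
        (show 0 ≤ 2 - √(2 : ℝ) by linarith)
      linarith
    · rw [s2]
      have := mul_le_mul_of_nonneg_right (show 1 - (j : ℝ) / k ≤ 1 by linarith)
        (show 0 ≤ √(2 : ℝ) - 1 by linarith)
      linarith
  · have := hθ2 h2
    refine density_sigma hj hk A B (a := 1) (c := 4 / 3) le_rfl (by norm_num) (hfirst _) h ?_
      (Or.inr ?_)
    · linarith
    · norm_num
      linarith
  · have s0 : 0 ≤ √(5 : ℝ) := Real.sqrt_nonneg 5
    have s2 : √(5 : ℝ) ^ 2 = 5 := Real.sq_sqrt (by norm_num)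
    have s1 : 11 / 5 ≤ √(5 : ℝ) := Real.le_sqrt_of_sq_le (by norm_num)
    have s3 : √(5 : ℝ) ≤ 3 := by nlinarith
    refine density_sigma hj hk A B (a := √5 - 1) (c := √5 - 1) (by linarith) (by linarith) h h' ?_
      (Or.inl ?_)
    · have := mul_le_mul_of_nonneg_right (show 1 - (j : ℝ) / k ≤ 1 by linarith)
        (show 0 ≤ 2 - (√(5 : ℝ) - 1) by linarith)
      nlinarith
    · nlinarith
  · rcases h' with h2 | h2 | h2
    · have := hθ2 h2
      exact density_uni hj hk A B (a := 1) (c := 1) (h := 1) (sigma_nonneg _ _)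
        (sigma_nonneg _ _) le_rfl le_rfl (hfirst _) (fun l hl => rows_ge N A hl)
        (hfirst _) (fun l hl => rows_ge N _ hl) (by rwa [one_mul]) (by linarith)
        (Or.inl (by norm_num))
    · exact density_uni hj hk A B (a := 1) (c := 4 / 3) (h := 1) (sigma_nonneg _ _)
        (sigma_nonneg _ _) le_rfl (by norm_num) (hfirst _) (fun l hl => rows_ge N A hl)
        h2 (fun l hl => rows_ge N _ hl) (by rwa [one_mul]) (by linarith)
        (Or.inl (by norm_num))
    · rcases le_or_gt 1 (2 - 2 * ((j : ℝ) / k)) with h3 | h3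
      · exact density_uni hj hk A B (a := 2 - 2 * ((j : ℝ) / k)) (c := 1) (h := 1)
          (sigma_nonneg _ _) (sigma_nonneg _ _) h3 le_rfl h2 (fun l hl => rows_ge N A hl)
          (hfirst _) (fun l hl => rows_ge N _ hl) (by rwa [one_mul]) (by linarith)
          (Or.inl (by linarith))
      · exact density_uni hj hk A B (a := 1) (c := 1) (h := 1) (sigma_nonneg _ _)
          (sigma_nonneg _ _) le_rfl le_rfl (hfirst _) (fun l hl => rows_ge N A hl)
          (hfirst _) (fun l hl => rows_ge N _ hl) (by rwa [one_mul]) (by linarith)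
          (Or.inl (by norm_num))

end Pool.Agent.H65V
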